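import Pool.Agent.Hp428.DS.Rat
import Pool.Agent.R838.CR.Real1
import Pool.Agent.W571.SD.SB1
import Pool.Agent.H24R2.DZ.Half

set_option autoImplicit false

/-!
# The next zero of a derivative on the axis, local form
-/

namespace Pool.Agent.Hp428.DS

open Complex Filter Topology MeasureTheory Set
open Pool.Agent.H24R2.DZ (bad hc NN)
open Pool.Agent.H986R2.K4 (QQ lapQ)
open Pool.Agent.W571.SD (toQQ iter_shift)
open Pool.Agent.R838.CR (first_zero)

/-- A function whose logarithmic derivative is close to `i a` is close to `exp (i a h)`. -/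
lemma rot {a e : ℝ} (ha : 0 < a) (he : 0 < e) (he1 : e ≤ 1 / 4) (A B : ℝ → ℂ)
    (hA : ∀ h : ℝ, 0 ≤ h → a * h ≤ 4 → A h ≠ 0)
    (hder : ∀ h : ℝ, 0 ≤ h → a * h ≤ 4 → HasDerivAt A (I * a * B h) h)
    (hB : ∀ h : ℝ, 0 ≤ h → a * h ≤ 4 → ‖B h / A h - 1‖ ≤ e) :
    ∀ h : ℝ, 0 ≤ h → a * h ≤ 4 → ‖A h / A 0 - cexp (((a * h : ℝ) : ℂ) * I)‖ ≤ 8 * e := by
  have hA0 : A 0 ≠ 0 := hA 0 le_rfl (by rw [mul_zero]; norm_num)
  intro x hx0 hx1
  have hin : ∀ h ∈ Icc 0 x, 0 ≤ h ∧ a * h ≤ 4 := fun h hh =>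
    ⟨hh.1, (mul_le_mul_of_nonneg_left hh.2 ha.le).trans hx1⟩
  obtain ⟨W, hW⟩ : ∃ W : ℝ → ℂ, W = fun h => A h / A 0 * cexp (-(((a * h : ℝ) : ℂ) * I)) - 1 := ⟨_, rfl⟩
  have hWd : ∀ h ∈ Icc 0 x, HasDerivAt W (I * a * (B h / A h - 1) * (W h + 1)) h := by
    intro h hh
    obtain ⟨h1, h2⟩ := hin h hh
    have d1 := (hder h h1 h2).div_const (A 0)
    have d2 : HasDerivAt (fun h : ℝ => -(((a * h : ℝ) : ℂ) * I)) (-((a : ℂ) * I)) h := by
      have h3 : HasDerivAt (fun h : ℝ => a * h) (a * 1) h := (hasDerivAt_id h).const_mul a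
      have h4 : HasDerivAt (fun h : ℝ => -(((a * h : ℝ) : ℂ) * I)) (-(((a * 1 : ℝ) : ℂ) * I)) h :=
        (h3.ofReal_comp.mul_const I).neg
      rw [mul_one] at h4
      exact h4
    have d3 := ((d1.mul d2.cexp).sub_const 1)
    rw [hW]
    refine d3.congr_deriv ?_
    have hAh := hA h h1 h2
    simp only
    field_simp
    ring
  have hWn : ∀ h ∈ Ico 0 x, ‖I * a * (B h / A h - 1) * (W h + 1)‖ ≤ (a * e) * ‖W h‖ + a * e := by
    intro h hh
    obtain ⟨h1, h2⟩ := hin h ⟨hh.1, hh.2.le⟩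
    rw [norm_mul, norm_mul, norm_mul, Complex.norm_I, one_mul, Complex.norm_real, Real.norm_eq_abs,
      abs_of_pos ha]
    have h3 : ‖W h + 1‖ ≤ ‖W h‖ + 1 := by
      refine (norm_add_le _ _).trans ?_
      rw [norm_one]
    calc a * ‖B h / A h - 1‖ * ‖W h + 1‖ ≤ a * e * (‖W h‖ + 1) := by
          gcongr
          exact hB h h1 h2
      _ = _ := by ring
  have hgr := norm_le_gronwallBound_of_norm_deriv_right_le (f := W)
    (f' := fun h => I * a * (B h / A h - 1) * (W h + 1)) (δ := 0) (K := a * e) (ε := a * e) (a := 0) (b := x)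
    (fun h hh => (hWd h hh).continuousAt.continuousWithinAt)
    (fun h hh => (hWd h ⟨hh.1, hh.2.le⟩).hasDerivWithinAt)
    (by
      rw [hW]
      simp [hA0]) hWn x ⟨hx0, le_rfl⟩
  have hae : a * e ≠ 0 := by positivity
  rw [gronwallBound_of_K_ne_0 hae] at hgr
  simp only [zero_mul, zero_add, div_self hae, one_mul, sub_zero] at hgr
  have h5 : Real.exp (a * e * x) - 1 ≤ 8 * e := by
    have h6 : a * e * x ≤ 4 * e := by
      calc a * e * x = e * (a * x) := by ring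
        _ ≤ e * 4 := mul_le_mul_of_nonneg_left hx1 he.le
        _ = _ := by ring
    have h7 : 0 ≤ a * e * x := by positivity
    have h8 : |a * e * x| ≤ 1 := by rw [abs_of_nonneg h7]; linarith
    have h9 := Real.abs_exp_sub_one_le h8
    have h10 := (le_abs_self _).trans h9
    rw [abs_of_nonneg h7] at h10
    linarith
  have h11 : A x / A 0 - cexp (((a * x : ℝ) : ℂ) * I) = W x * cexp (((a * x : ℝ) : ℂ) * I) := by
    rw [hW]
    simp only
    rw [sub_mul, one_mul, mul_assoc, ← Complex.exp_add]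
    rw [show -(((a * x : ℝ) : ℂ) * I) + ((a * x : ℝ) : ℂ) * I = 0 by ring, Complex.exp_zero, mul_one]
  rw [h11, norm_mul, Complex.norm_exp_ofReal_mul_I, mul_one]
  linarith

/-- **The next zero on the axis.** -/
theorem gapD (ε : ℝ) (hε : 0 < ε) (hε1 : ε ≤ 1 / 2) : ∃ η : ℝ, ∃ n0 : ℕ, 0 < η ∧ 1 ≤ n0 ∧
    ∀ (n : ℕ) (F : ℂ → ℂ), n0 ≤ n → NN n η F → ∀ y : ℝ, |y| ≤ 1 / 100 →
    iteratedDeriv n F ((y : ℂ) * I) = 0 →
    ∃ h : ℝ, 0 < h ∧ |n * h - Real.pi| ≤ ε ∧ iteratedDeriv n F (((y + h : ℝ) : ℂ) * I) = 0 ∧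
      ∀ h' : ℝ, 0 < h' → h' < h → iteratedDeriv n F (((y + h' : ℝ) : ℂ) * I) ≠ 0 := by
  obtain ⟨e, he⟩ : ∃ e : ℝ, e = ε / 256 := ⟨_, rfl⟩
  have he0 : 0 < e := by rw [he]; positivity
  obtain ⟨κ1, η, n0, hκ1, hκ12, hη, hn0, H⟩ := rte lapQ (1 / 2) 18 e (by norm_num) (by norm_num)
    (by norm_num) he0
  refine ⟨min η (1 / 200), max (max n0 (⌈8 / κ1⌉₊ + 1)) (⌈1 / e⌉₊ + 1), lt_min hη (by norm_num),
    hn0.trans ((le_max_left _ _).trans (le_max_left _ _)), ?_⟩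
  intro n F hn hN y hy hz
  have hnn0 : n0 ≤ n := ((le_max_left _ _).trans (le_max_left _ _)).trans hn
  have hn1 : 1 ≤ n := hn0.trans hnn0
  have ha : (0 : ℝ) < n := by exact_mod_cast hn1
  have hn8 : 8 / κ1 ≤ n := by
    have h1 : ⌈8 / κ1⌉₊ + 1 ≤ n := ((le_max_right _ _).trans (le_max_left _ _)).trans hn
    have h2 : ((⌈8 / κ1⌉₊ + 1 : ℕ) : ℝ) ≤ n := by exact_mod_cast h1
    push_cast at h2
    have := Nat.le_ceil (8 / κ1)
    linarith
  have hne : 1 / e ≤ n := by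
    have h1 : ⌈1 / e⌉₊ + 1 ≤ n := (le_max_right _ _).trans hn
    have h2 : ((⌈1 / e⌉₊ + 1 : ℕ) : ℝ) ≤ n := by exact_mod_cast h1
    push_cast at h2
    have := Nat.le_ceil (1 / e)
    linarith
  have hη0 : 0 ≤ min η (1 / 200) := (lt_min hη (by norm_num)).le
  have hQ := toQQ (η' := η) hη0 (min_le_right _ _) (min_le_left _ _) hN y hy
  obtain ⟨G, hG⟩ : ∃ G : ℂ → ℂ, G = fun z => F (z + (y : ℂ) * I) := ⟨_, rfl⟩
  rw [← hG] at hQ
  have hGit : ∀ z : ℂ, iteratedDeriv n G z = iteratedDeriv n F (z + (y : ℂ) * I) := by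
    intro z
    rw [hG]
    exact iter_shift n _ z
  -- the right halves on the axis
  obtain ⟨A, hA⟩ : ∃ A : ℝ → ℂ, A = fun h : ℝ => hc G (n + 1) ((h : ℂ) * I) := ⟨_, rfl⟩
  obtain ⟨B, hB⟩ : ∃ B : ℝ → ℂ, B = fun h : ℝ => ((((n : ℝ) + 1) / n : ℝ) : ℂ) * hc G (n + 2) ((h : ℂ) * I) := ⟨_, rfl⟩
  have hsm : ∀ h : ℝ, 0 ≤ h → n * h ≤ 4 → ‖(h : ℂ) * I‖ ≤ κ1 := by
    intro h h0 h1
    rw [norm_mul, Complex.norm_I, mul_one, Complex.norm_real, Real.norm_eq_abs, abs_of_nonneg h0]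
    have h2 : h ≤ 4 / n := by
      rw [le_div_iff₀ ha]
      linarith
    have h3 : 4 / (n : ℝ) ≤ κ1 := by
      rw [div_le_iff₀ hκ1] at hn8
      rw [div_le_iff₀ ha]
      linarith
    linarith
  have hsm1 : ∀ h : ℝ, 0 ≤ h → n * h ≤ 4 → ‖(h : ℂ) * I‖ < 1 := by
    intro h h0 h1
    have := hsm h h0 h1
    linarith
  have hratio : ∀ h : ℝ, 0 ≤ h → n * h ≤ 4 → A h ≠ 0 ∧ ‖B h / A h - 1‖ ≤ 4 * e := by
    intro h h0 h1
    obtain ⟨k1, k2⟩ := H n G hnn0 hQ _ (hsm h h0 h1)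
    rw [hA, hB]
    refine ⟨k1, ?_⟩
    simp only
    obtain ⟨q, hq⟩ : ∃ q : ℂ, q = hc G (n + 2) ((h : ℂ) * I) / hc G (n + 1) ((h : ℂ) * I) := ⟨_, rfl⟩
    rw [← hq] at k2
    have e1 : ((((n : ℝ) + 1) / n : ℝ) : ℂ) * hc G (n + 2) ((h : ℂ) * I) / hc G (n + 1) ((h : ℂ) * I) - 1 =
        (q - 1) + ((1 / n : ℝ) : ℂ) * q := by
      rw [mul_div_assoc, ← hq]
      have hn0' : (n : ℂ) ≠ 0 := by exact_mod_cast ha.ne'
      push_cast
      field_simp
      ring
    have h4 : ‖q‖ ≤ 1 + e := by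
      have h5 := norm_add_le (q - 1) 1
      rw [sub_add_cancel, norm_one] at h5
      linarith
    have h6 : 1 / (n : ℝ) ≤ e := by
      rw [div_le_iff₀ he0] at hne
      rw [div_le_iff₀ ha]
      linarith
    have h7 : 0 ≤ 1 / (n : ℝ) := by positivity
    push_cast at e1 ⊢
    rw [e1]
    refine (norm_add_le _ _).trans ?_
    have h8 : ‖(1 / (n : ℂ)) * q‖ ≤ e * (1 + e) := by
      rw [norm_mul]
      have : ‖(1 / (n : ℂ))‖ = 1 / (n : ℝ) := by
        rw [norm_div, norm_one]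
        simp
      rw [this]
      gcongr
    have h9 : e * (1 + e) ≤ 2 * e := by nlinarith
    linarith
  have hder : ∀ h : ℝ, 0 ≤ h → n * h ≤ 4 → HasDerivAt A (I * (n : ℝ) * B h) h := by
    intro h h0 h1
    have d1 := (Pool.Agent.H24R2.DZ.half G n ((h : ℂ) * I) hQ.diff hQ.symm (hsm1 h h0 h1)).2
    have d2 : HasDerivAt (fun h : ℝ => (h : ℂ) * I) I h := by
      have h := (Complex.ofRealCLM.hasDerivAt (x := h)).mul_const I
      simpa using h
    have d3 : HasDerivAt (fun h : ℝ => hc G (n + 1) ((h : ℂ) * I))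
        ((n + 1) * hc G (n + 2) ((h : ℂ) * I) * I) h :=
      HasDerivAt.comp (h₂ := fun z => hc G (n + 1) z) (h := fun h : ℝ => (h : ℂ) * I) h d1 d2
    rw [hA]
    refine d3.congr_deriv ?_
    rw [hB]
    have hn0' : (n : ℂ) ≠ 0 := by exact_mod_cast ha.ne'
    push_cast
    field_simp
  have he4 : 4 * e ≤ 1 / 4 := by rw [he]; linarith
  have hrot := rot (a := n) (e := 4 * e) ha (by positivity) he4 A B (fun h h0 h1 => (hratio h h0 h1).1)
    hder (fun h h0 h1 => (hratio h h0 h1).2)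
  have hA0 : A 0 ≠ 0 := (hratio 0 le_rfl (by rw [mul_zero]; norm_num)).1
  -- the value of the derivative in terms of `A`
  have hfac : (n.factorial : ℂ) ≠ 0 := by exact_mod_cast n.factorial_ne_zero
  have hval : ∀ h : ℝ, 0 ≤ h → n * h ≤ 4 →
      iteratedDeriv n F (((y + h : ℝ) : ℂ) * I) / n.factorial = A h + (-1) ^ n * (starRingEnd ℂ) (A h) := by
    intro h h0 h1
    have d1 := (Pool.Agent.H24R2.DZ.half G n ((h : ℂ) * I) hQ.diff hQ.symm (hsm1 h h0 h1)).1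
    rw [hGit] at d1
    have e1 : -((starRingEnd ℂ) ((h : ℂ) * I)) = (h : ℂ) * I := by
      rw [map_mul, Complex.conj_I, Complex.conj_ofReal]
      ring
    rw [e1] at d1
    have e2 : (h : ℂ) * I + (y : ℂ) * I = ((y + h : ℝ) : ℂ) * I := by
      push_cast
      ring
    rw [e2] at d1
    rw [hA]
    exact d1
  have h00 := hval 0 le_rfl (by rw [mul_zero]; norm_num)
  rw [add_zero, hz, zero_div] at h00
  have hval2 : ∀ h : ℝ, 0 ≤ h → n * h ≤ 4 →
      iteratedDeriv n F (((y + h : ℝ) : ℂ) * I) / n.factorial = A 0 * (2 * I * ((A h / A 0).im : ℂ)) := by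
    intro h h0 h1
    rw [hval h h0 h1]
    have hcA0 : (starRingEnd ℂ) (A 0) ≠ 0 := by simpa using hA0
    have e1 : ((-1 : ℂ)) ^ n = -(A 0 / (starRingEnd ℂ) (A 0)) := by
      rw [eq_neg_iff_add_eq_zero, ← mul_right_inj' hcA0, mul_add, mul_zero]
      rw [mul_div_cancel₀ _ hcA0]
      linear_combination -h00
    have e2 : 2 * I * ((A h / A 0).im : ℂ) = A h / A 0 - (starRingEnd ℂ) (A h / A 0) := by
      rw [Complex.sub_conj]
      push_cast
      ring
    rw [e2, map_div₀, e1]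
    field_simp
    ring
  have hiff : ∀ h : ℝ, 0 ≤ h → n * h ≤ 4 →
      (iteratedDeriv n F (((y + h : ℝ) : ℂ) * I) = 0 ↔ (A h / A 0).im = 0) := by
    intro h h0 h1
    have h2 := hval2 h h0 h1
    constructor
    · intro h3
      rw [h3, zero_div] at h2
      have h4 := mul_eq_zero.1 h2.symm
      rcases h4 with h4 | h4
      · exact absurd h4 hA0
      · have h5 : (2 * I : ℂ) ≠ 0 := by simp
        have h6 := (mul_eq_zero.1 h4).resolve_left h5
        exact_mod_cast h6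
    · intro h3
      rw [h3] at h2
      rw [Complex.ofReal_zero, mul_zero, mul_zero] at h2
      exact (div_eq_zero_iff.1 h2).resolve_right hfac
  have hAn : ∀ h : ℝ, 0 ≤ h → n * h ≤ 4 → ‖A h / A 0‖ ≤ 1 + 32 * e := by
    intro h h0 h1
    have h2 := norm_add_le (A h / A 0 - cexp ((((n : ℝ) * h : ℝ) : ℂ) * I)) (cexp ((((n : ℝ) * h : ℝ) : ℂ) * I))
    rw [sub_add_cancel, Complex.norm_exp_ofReal_mul_I] at h2
    have := hrot h h0 h1
    linarith
  obtain ⟨h, hh0, hh1, hh2, hh3⟩ := first_zero (g := fun h : ℝ => (A h / A 0).im)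
    (k := fun h : ℝ => (B h / A 0).re) (a := n) (ε := ε) (ε1 := 32 * e) ha hε hε1
    (by rw [he]; linarith) (by simp [hA0]) (by
      intro h h0 h1
      have d1 := (hder h h0 h1).div_const (A 0)
      have d2 : HasDerivAt (fun h : ℝ => (A h / A 0).im) ((I * (n : ℝ) * B h / A 0).im) h :=
        Complex.imCLM.hasFDerivAt.comp_hasDerivAt h d1
      refine d2.congr_deriv ?_
      have e1 : I * ((n : ℝ) : ℂ) * B h / A 0 = ((n : ℝ) : ℂ) * (I * (B h / A 0)) := by ring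
      rw [e1, Complex.im_ofReal_mul, Complex.I_mul_im]) (by
      intro h h0 h1
      have d1 := (Complex.abs_im_le_norm _).trans (hrot h h0 h1)
      rw [Complex.sub_im, Complex.exp_ofReal_mul_I_im] at d1
      linarith) (by
      intro h h0 h1
      have hAh := (hratio h h0 h1).1
      have e1 : B h / A 0 - cexp ((((n : ℝ) * h : ℝ) : ℂ) * I) = (B h / A h - 1) * (A h / A 0) +
          (A h / A 0 - cexp ((((n : ℝ) * h : ℝ) : ℂ) * I)) := by
        field_simp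
        ring
      have d1 : ‖B h / A 0 - cexp ((((n : ℝ) * h : ℝ) : ℂ) * I)‖ ≤ 4 * e * (1 + 32 * e) + 32 * e := by
        rw [e1]
        refine (norm_add_le _ _).trans ?_
        rw [norm_mul]
        have k1 := (hratio h h0 h1).2
        have k2 := hAn h h0 h1
        have k3 := hrot h h0 h1
        have k4 : ‖B h / A h - 1‖ * ‖A h / A 0‖ ≤ 4 * e * (1 + 32 * e) := by gcongr
        linarith
      have d2 := (Complex.abs_re_le_norm _).trans d1
      rw [Complex.sub_re, Complex.exp_ofReal_mul_I_re] at d2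
      have d3 : 4 * e * (1 + 32 * e) ≤ 4 * e * 2 := by
        gcongr
        rw [he]
        linarith
      linarith)
  have hnh : (n : ℝ) * h ≤ 4 := by
    have := (abs_le.1 hh1).2
    have hpi2 := Real.pi_lt_d2
    norm_num at hpi2
    linarith
  refine ⟨h, hh0, hh1, ?_, ?_⟩
  · exact (hiff h hh0.le hnh).2 hh2
  · intro h' h0' hlt hcon
    have hnh' : (n : ℝ) * h' ≤ 4 := (mul_le_mul_of_nonneg_left hlt.le ha.le).trans hnh
    exact hh3 h' h0' hlt ((hiff h' h0'.le hnh').1 hcon)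

end Pool.Agent.Hp428.DS
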